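import Pool.Agent.V1185.Spiral.Len

open Set Real Filter Topology MeasureTheory
open scoped ENNReal

namespace Pool.Agent.V1185.Spiral

/-- the Euclidean plane -/
abbrev E2 := EuclideanSpace ℝ (Fin 2)

/-- a closed box -/
def bx (a b c d : ℝ) : Set E2 := {p | (a ≤ p 0 ∧ p 0 ≤ b) ∧ (c ≤ p 1 ∧ p 1 ≤ d)}

lemma volume_bx (a b c d : ℝ) :
    volume (bx a b c d) = ENNReal.ofReal (b - a) * ENNReal.ofReal (d - c) := by
  have h : bx a b c d = (@WithLp.ofLp 2 (Fin 2 → ℝ)) ⁻¹' Icc ![a, c] ![b, d] := by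
    ext p
    simp only [bx, Set.mem_ofPred_eq, Set.mem_preimage, mem_Icc, Pi.le_def, Fin.forall_fin_two,
      Matrix.cons_val_zero, Matrix.cons_val_one]
    tauto
  rw [h, (PiLp.volume_preserving_ofLp (ι := Fin 2)).measure_preimage
    measurableSet_Icc.nullMeasurableSet, Real.volume_Icc_pi]
  simp

lemma coord_le (p q : E2) (i : Fin 2) : |p i - q i| ≤ dist p q := by
  rw [dist_eq_norm]
  have := PiLp.norm_apply_le (p - q) i
  simpa [Real.norm_eq_abs] using this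

lemma dist_le_of_vert {p q : E2} {ε : ℝ} (h0 : p 0 = q 0) (h1 : |p 1 - q 1| ≤ ε) :
    dist p q ≤ ε := by
  rw [EuclideanSpace.dist_eq, Fin.sum_univ_two, h0, dist_self, Real.dist_eq]
  have : (0:ℝ) ^ 2 + |p 1 - q 1| ^ 2 = |p 1 - q 1| ^ 2 := by ring
  rw [this, sqrt_sq (abs_nonneg _)]
  exact h1

variable {m n k : ℕ} {u X Y w : ℝ → ℝ}

namespace Sys

lemma exists_level (S : Sys m n k u X Y w) {U : ℝ} (hU : u 0 ≤ U) : ∃ T, 0 ≤ T ∧ u T = U := by
  obtain ⟨b, hb, hb0⟩ := ((S.lim.eventually_ge_atTop U).and (eventually_ge_atTop 0)).exists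
  obtain ⟨T, hT, h⟩ := intermediate_value_Icc hb0
    (S.u_cont.mono Icc_subset_Ici_self) (show U ∈ Icc (u 0) (u b) from ⟨hU, hb⟩)
  exact ⟨T, hT.1, h⟩

/-- Upper bound for the area. -/
lemma area_upper (S : Sys m n k u X Y w) {τ : ℝ} (hτ : |τ| = 1) : ∃ C : ℝ, 0 < C ∧
    ∀ U : ℝ, 1 ≤ U → u 0 ≤ U → ∀ E : Set E2,
      (∀ p ∈ E, ∃ t, 0 ≤ t ∧ p 0 = u t ^ (-al m k) * X t ∧ p 1 = τ * (u t ^ (-al n k) * Y t)) →
      volume (Metric.cthickening (U ^ (-(1 + al n k))) E)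
        ≤ ENNReal.ofReal (C * U ^ (-(al m k + al n k))) := by
  obtain ⟨V, C, hC, hV1, hV2, hV3⟩ := S.exists_V
  have hkN : 0 < k := S.hk
  have ha0 := al_pos S.m_pos hkN
  have ha1 := al_le_half S.m_pos hkN
  have hb0 := al_pos S.n_pos hkN
  have hb1 := al_le_half S.n_pos hkN
  set α := al m k with hα
  set β := al n k with hβ
  refine ⟨72 + 36 * C, by positivity, ?_⟩
  intro U hU1 hU0 E hE
  have hUp : 0 < U := by linarith
  set ε := U ^ (-(1 + β)) with hε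
  have hεp : 0 < ε := rpow_pos_of_pos hUp _
  obtain ⟨T, hT0, hT⟩ := S.exists_level hU0
  have hε1 : ε ≤ U ^ (-α) := rpow_le_rpow_of_exponent_le hU1 (by linarith)
  have hε2 : ε ≤ U ^ (-β) := rpow_le_rpow_of_exponent_le hU1 (by linarith)
  have hUα : 0 < U ^ (-α) := rpow_pos_of_pos hUp _
  have hUβ : 0 < U ^ (-β) := rpow_pos_of_pos hUp _
  -- representatives
  let N : ℕ := ⌊V T / ε⌋₊ + 1
  have hrep : ∀ i : ℕ, ∃ s : ℝ, ∀ t, 0 ≤ t → ⌊V t / ε⌋₊ = i →
      |u t ^ (-α) * X t - u s ^ (-α) * X s| ≤ ε ∧ |u t ^ (-β) * Y t - u s ^ (-β) * Y s| ≤ ε := by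
    intro i
    by_cases h : ∃ s, 0 ≤ s ∧ ⌊V s / ε⌋₊ = i
    · obtain ⟨s, hs0, hs⟩ := h
      refine ⟨s, fun t ht0 ht => ?_⟩
      have f1 := Nat.floor_le (div_nonneg (hV1 s hs0).1 hεp.le)
      have f2 := Nat.lt_floor_add_one (V s / ε)
      have f3 := Nat.floor_le (div_nonneg (hV1 t ht0).1 hεp.le)
      have f4 := Nat.lt_floor_add_one (V t / ε)
      rw [hs] at f1 f2
      rw [ht] at f3 f4
      rw [le_div_iff₀ hεp] at f1 f3
      rw [div_lt_iff₀ hεp] at f2 f4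
      rcases le_total s t with h | h
      · have := hV3 s t hs0 h
        constructor <;> linarith [this.1, this.2]
      · have := hV3 t s ht0 h
        rw [abs_sub_comm, abs_sub_comm (u t ^ (-β) * Y t)]
        constructor <;> linarith [this.1, this.2]
    · exact ⟨0, fun t ht0 ht => absurd ⟨t, ht0, ht⟩ h⟩
  choose s hs using hrep
  -- the cover
  let B0 : Set E2 := bx (-(U ^ (-α) + 2 * ε)) (U ^ (-α) + 2 * ε) (-(U ^ (-β) + 2 * ε))
    (U ^ (-β) + 2 * ε)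
  let B : ℕ → Set E2 := fun i => bx (u (s i) ^ (-α) * X (s i) - 3 * ε)
    (u (s i) ^ (-α) * X (s i) + 3 * ε) (τ * (u (s i) ^ (-β) * Y (s i)) - 3 * ε)
    (τ * (u (s i) ^ (-β) * Y (s i)) + 3 * ε)
  have hcov : Metric.cthickening ε E ⊆ B0 ∪ ⋃ i ∈ Finset.range N, B i := by
    intro p hp
    have h1 := Metric.cthickening_subset_thickening' (δ₂ := 2 * ε) (by positivity) (by linarith) E hp
    obtain ⟨q, hq, hpq⟩ := Metric.mem_thickening_iff.1 h1
    obtain ⟨t, ht0, hq0, hq1⟩ := hE q hq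
    have c0 := (coord_le p q 0).trans hpq.le
    have c1 := (coord_le p q 1).trans hpq.le
    rw [hq0] at c0
    rw [hq1] at c1
    rw [abs_le] at c0 c1
    rcases le_total t T with htT | htT
    · right
      have hi : ⌊V t / ε⌋₊ < N := by
        have : ⌊V t / ε⌋₊ ≤ ⌊V T / ε⌋₊ := by
          apply Nat.floor_le_floor
          apply div_le_div_of_nonneg_right _ hεp.le
          exact hV2 ht0 hT0 htT
        omega
      refine mem_iUnion₂.2 ⟨⌊V t / ε⌋₊, Finset.mem_range.2 hi, ?_⟩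
      obtain ⟨g1, g2⟩ := hs _ t ht0 rfl
      have g3 : |τ * (u t ^ (-β) * Y t) - τ * (u (s ⌊V t / ε⌋₊) ^ (-β) * Y (s ⌊V t / ε⌋₊))| ≤ ε := by
        rw [← mul_sub, abs_mul, hτ, one_mul]
        exact g2
      rw [abs_le] at g1 g3
      refine ⟨⟨?_, ?_⟩, ⟨?_, ?_⟩⟩ <;> linarith [c0.1, c0.2, c1.1, c1.2, g1.1, g1.2, g3.1, g3.2]
    · left
      have hut : U ≤ u t := by
        rw [← hT]
        exact S.u_mono (mem_Ici.2 hT0) (mem_Ici.2 ht0) htT
      have g1 : |u t ^ (-α) * X t| ≤ U ^ (-α) := by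
        rw [abs_mul, abs_of_pos (rpow_pos_of_pos (S.hu t ht0) _)]
        have i1 : u t ^ (-α) ≤ U ^ (-α) := rpow_le_rpow_of_nonpos hUp hut (by linarith)
        have i2 := S.absX_le ht0
        calc _ ≤ U ^ (-α) * 1 := mul_le_mul i1 i2 (abs_nonneg _) hUα.le
          _ = _ := mul_one _
      have g2 : |τ * (u t ^ (-β) * Y t)| ≤ U ^ (-β) := by
        rw [abs_mul, hτ, one_mul, abs_mul, abs_of_pos (rpow_pos_of_pos (S.hu t ht0) _)]
        have i1 : u t ^ (-β) ≤ U ^ (-β) := rpow_le_rpow_of_nonpos hUp hut (by linarith)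
        have i2 := S.absY_le ht0
        calc _ ≤ U ^ (-β) * 1 := mul_le_mul i1 i2 (abs_nonneg _) hUβ.le
          _ = _ := mul_one _
      rw [abs_le] at g1 g2
      refine ⟨⟨?_, ?_⟩, ⟨?_, ?_⟩⟩ <;> linarith [c0.1, c0.2, c1.1, c1.2, g1.1, g1.2, g2.1, g2.2]
  have hB0 : volume B0 ≤ ENNReal.ofReal (36 * (U ^ (-α) * U ^ (-β))) := by
    simp only [B0]
    rw [volume_bx, ← ENNReal.ofReal_mul (by linarith)]
    apply ENNReal.ofReal_le_ofReal
    have h1 : U ^ (-α) + 2 * ε - -(U ^ (-α) + 2 * ε) ≤ 6 * U ^ (-α) := by linarith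
    have h2 : U ^ (-β) + 2 * ε - -(U ^ (-β) + 2 * ε) ≤ 6 * U ^ (-β) := by linarith
    calc _ ≤ (6 * U ^ (-α)) * (6 * U ^ (-β)) := mul_le_mul h1 h2 (by linarith) (by positivity)
      _ = _ := by ring
  have hBi : ∀ i, volume (B i) ≤ ENNReal.ofReal (36 * ε ^ 2) := by
    intro i
    simp only [B]
    rw [volume_bx, ← ENNReal.ofReal_mul (by linarith)]
    apply ENNReal.ofReal_le_ofReal
    apply le_of_eq
    ring
  have hsum : volume (⋃ i ∈ Finset.range N, B i) ≤ ENNReal.ofReal (N * (36 * ε ^ 2)) := by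
    calc volume (⋃ i ∈ Finset.range N, B i) ≤ ∑ i ∈ Finset.range N, volume (B i) :=
          measure_biUnion_finset_le _ _
      _ ≤ ∑ i ∈ Finset.range N, ENNReal.ofReal (36 * ε ^ 2) := Finset.sum_le_sum fun i _ => hBi i
      _ = ENNReal.ofReal (N * (36 * ε ^ 2)) := by
          rw [Finset.sum_const, Finset.card_range, nsmul_eq_mul,
            ENNReal.ofReal_mul (Nat.cast_nonneg _), ENNReal.ofReal_natCast]
  have hUab : U ^ (-(α + β)) = U ^ (-α) * U ^ (-β) := by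
    rw [← rpow_add hUp]; congr 1; ring
  have hN : (N:ℝ) * (36 * ε ^ 2) ≤ 36 * (C + 1) * (U ^ (-α) * U ^ (-β)) := by
    have f1 := Nat.floor_le (div_nonneg (hV1 T hT0).1 hεp.le)
    have f2 : (N:ℝ) ≤ V T / ε + 1 := by
      simp only [N]; push_cast; linarith
    have f3 : V T ≤ C * U ^ (1 - α) := by have := (hV1 T hT0).2; rwa [hT] at this
    have f4 : U ^ (1 - α) * ε = U ^ (-α) * U ^ (-β) := by
      rw [hε, ← rpow_add hUp, ← rpow_add hUp]; congr 1; ring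
    have f5 : ε ^ 2 ≤ U ^ (-α) * U ^ (-β) := by
      rw [sq]; exact mul_le_mul hε1 hε2 hεp.le hUα.le
    calc (N:ℝ) * (36 * ε ^ 2) ≤ (V T / ε + 1) * (36 * ε ^ 2) :=
          mul_le_mul_of_nonneg_right f2 (by positivity)
      _ = 36 * (V T * ε) + 36 * ε ^ 2 := by field_simp
      _ ≤ 36 * (C * U ^ (1 - α) * ε) + 36 * ε ^ 2 := by
          have := mul_le_mul_of_nonneg_right f3 hεp.le
          linarith
      _ = 36 * (C * (U ^ (-α) * U ^ (-β))) + 36 * ε ^ 2 := by rw [← f4]; ring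
      _ ≤ _ := by linarith
  calc volume (Metric.cthickening ε E) ≤ volume (B0 ∪ ⋃ i ∈ Finset.range N, B i) :=
        measure_mono hcov
    _ ≤ volume B0 + volume (⋃ i ∈ Finset.range N, B i) := measure_union_le _ _
    _ ≤ ENNReal.ofReal (36 * (U ^ (-α) * U ^ (-β))) + ENNReal.ofReal (N * (36 * ε ^ 2)) :=
        add_le_add hB0 hsum
    _ = ENNReal.ofReal (36 * (U ^ (-α) * U ^ (-β)) + N * (36 * ε ^ 2)) := by
        rw [ENNReal.ofReal_add (by positivity) (by positivity)]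
    _ ≤ ENNReal.ofReal ((72 + 36 * C) * U ^ (-(α + β))) := by
        apply ENNReal.ofReal_le_ofReal
        rw [hUab]
        linarith

lemma bern {v D : ℝ} {k : ℕ} (hk : 1 ≤ k) (hv : 0 < v) (hD : 0 ≤ D) :
    v ^ (-(1 / (k:ℝ))) - (v + D) ^ (-(1 / (k:ℝ))) ≤ D * (v ^ (-(1 / (k:ℝ))) / v) := by
  have hk1 : (1:ℝ) ≤ k := by exact_mod_cast hk
  have hz : 0 ≤ D / v := by positivity
  have e1 : v + D = v * (1 + D / v) := by field_simp
  have h1 : (1 + D / v)⁻¹ ≤ (1 + D / v) ^ (-(1 / (k:ℝ))) := by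
    rw [← rpow_neg_one]
    apply rpow_le_rpow_of_exponent_le (by linarith)
    have : 1 / (k:ℝ) ≤ 1 := by rw [div_le_one (by linarith)]; exact hk1
    linarith
  have h2 : 1 - D / v ≤ (1 + D / v)⁻¹ := by
    rw [← one_div, le_div_iff₀ (by linarith)]
    nlinarith
  rw [e1, mul_rpow hv.le (by linarith)]
  have h3 : 0 < v ^ (-(1 / (k:ℝ))) := rpow_pos_of_pos hv _
  have h4 : v ^ (-(1 / (k:ℝ))) * (1 - D / v) ≤ v ^ (-(1 / (k:ℝ))) * (1 + D / v) ^ (-(1 / (k:ℝ))) :=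
    mul_le_mul_of_nonneg_left (h2.trans h1) h3.le
  have h5 : D * (v ^ (-(1 / (k:ℝ))) / v) = v ^ (-(1 / (k:ℝ))) * (D / v) := by ring
  rw [h5]
  nlinarith

lemma rpow_al_pow {v : ℝ} (hv : 0 < v) {m k : ℕ} (hm : 0 < m) :
    (v ^ (-al m k)) ^ (2 * m) = v ^ (-(1 / (k:ℝ))) := by
  rw [← rpow_natCast, ← rpow_mul hv.le]
  congr 1
  unfold al
  have : (m:ℝ) ≠ 0 := by exact_mod_cast hm.ne'
  push_cast
  field_simp

lemma level_eq (S : Sys m n k u X Y w) {t : ℝ} (ht : 0 ≤ t) :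
    (u t ^ (-al m k) * X t) ^ (2 * m) + (u t ^ (-al n k) * Y t) ^ (2 * n)
      = u t ^ (-(1 / (k:ℝ))) := by
  rw [mul_pow, mul_pow, rpow_al_pow (S.hu t ht) S.m_pos, rpow_al_pow (S.hu t ht) S.n_pos,
    ← mul_add, S.lev t ht, mul_one]

/-- Lower bound for the area. -/
lemma area_lower (S : Sys m n k u X Y w) {τ : ℝ} (hτ : |τ| = 1) : ∃ D : ℝ, 0 < D ∧
    ∀ u₁ : ℝ, ∃ U₁ : ℝ, ∀ U : ℝ, U₁ ≤ U → ∀ E : Set E2,
      (∀ p : E2, ∀ t, 0 ≤ t → u₁ ≤ u t → p 0 = u t ^ (-al m k) * X t →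
        p 1 = τ * (u t ^ (-al n k) * Y t) → p ∈ E) →
      ENNReal.ofReal (U ^ (-(al m k + al n k)))
        ≤ volume (Metric.cthickening (D * U ^ (-(1 + al n k))) E) := by
  have hkN : 0 < k := S.hk
  have hk0 : (0:ℝ) < k := by exact_mod_cast hkN
  have ha0 := al_pos S.m_pos hkN
  have hb0 := al_pos S.n_pos hkN
  set α := al m k with hα
  set β := al n k with hβ
  set D0 : ℝ := 36 * m * k + 3 with hD0
  have hD0p : 0 < D0 := by rw [hD0]; positivity
  set M : ℝ := 4 ^ n + 1 with hM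
  have hM1 : 1 ≤ M := by rw [hM]; have : (0:ℝ) ≤ 4 ^ n := by positivity
                         linarith
  have hMp : 0 < M := by linarith
  refine ⟨2 * D0 * M ^ (k + 1), by positivity, fun u₁ => ?_⟩
  refine ⟨M ^ k * (max (u 0) (max u₁ (D0 * M + 1))) + 1, fun U hU E hE => ?_⟩
  have hMk : 0 < M ^ k := by positivity
  have hMk1 : 1 ≤ M ^ k := one_le_pow₀ hM1
  have hmax : 1 ≤ max (u 0) (max u₁ (D0 * M + 1)) := by
    refine le_trans ?_ (le_max_right _ _)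
    refine le_trans ?_ (le_max_right _ _)
    have : 0 < D0 * M := by positivity
    linarith
  have hU1 : 1 ≤ U := by nlinarith
  have hUp : 0 < U := by linarith
  have hUdiv : max (u 0) (max u₁ (D0 * M + 1)) ≤ U / M ^ k := by
    rw [le_div_iff₀ hMk]; nlinarith
  set R : ℝ := U ^ (-(1 / (k:ℝ))) with hR
  have hRp : 0 < R := rpow_pos_of_pos hUp _
  have hRk : (R ^ k)⁻¹ = U := by
    rw [hR, ← rpow_natCast, ← rpow_mul hUp.le]
    have : -(1 / (k:ℝ)) * (k:ℝ) = -1 := by field_simp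
    rw [this, rpow_neg_one, inv_inv]
  have hUα : 0 < U ^ (-α) := rpow_pos_of_pos hUp _
  have hUβ : 0 < U ^ (-β) := rpow_pos_of_pos hUp _
  have eα : (U ^ (-α)) ^ (2 * m) = R := rpow_al_pow hUp S.m_pos
  have eβ : (U ^ (-β)) ^ (2 * n) = R := rpow_al_pow hUp S.n_pos
  -- the box
  let Q : Set E2 := {p | (0 ≤ p 0 ∧ p 0 ≤ U ^ (-α)) ∧ (U ^ (-β) ≤ τ * p 1 ∧ τ * p 1 ≤ 2 * U ^ (-β))}
  have hQv : volume Q = ENNReal.ofReal (U ^ (-(α + β))) := by
    have hUab : U ^ (-(α + β)) = U ^ (-α) * U ^ (-β) := by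
      rw [← rpow_add hUp]; congr 1; ring
    have hcase : τ = 1 ∨ τ = -1 := by
      rcases abs_choice τ with h | h
      · left; linarith
      · right; linarith
    rcases hcase with h | h
    · have : Q = bx 0 (U ^ (-α)) (U ^ (-β)) (2 * U ^ (-β)) := by
        ext p
        simp only [Q, bx, h, one_mul, Set.mem_ofPred_eq]
      rw [this, volume_bx, ← ENNReal.ofReal_mul (by linarith), hUab]
      congr 1
      ring
    · have : Q = bx 0 (U ^ (-α)) (-(2 * U ^ (-β))) (-(U ^ (-β))) := by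
        ext p
        simp only [Q, bx, h, Set.mem_ofPred_eq]
        constructor
        · rintro ⟨h1, h2, h3⟩
          exact ⟨h1, by linarith, by linarith⟩
        · rintro ⟨h1, h2, h3⟩
          exact ⟨h1, by linarith, by linarith⟩
      rw [this, volume_bx, ← ENNReal.ofReal_mul (by linarith), hUab]
      congr 1
      ring
  rw [← hQv]
  refine measure_mono fun p hp => ?_
  obtain ⟨⟨p1, p2⟩, p3, p4⟩ := hp
  set x0 := p 0 with hx0
  set y0 := τ * p 1 with hy0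
  have hy0p : 0 < y0 := hUβ.trans_le p3
  have hττ : τ * τ = 1 := by
    have : τ * τ = |τ| * |τ| := (abs_mul_abs_self τ).symm
    rw [this, hτ, one_mul]
  have hp1 : p 1 = τ * y0 := by rw [hy0, ← mul_assoc, hττ, one_mul]
  have hx2 : x0 ^ (2 * m) ≤ R := by
    rw [← eα]; exact pow_le_pow_left₀ p1 p2 _
  have hx2' : 0 ≤ x0 ^ (2 * m) := by positivity
  have hy2 : R ≤ y0 ^ (2 * n) := by
    rw [← eβ]; exact pow_le_pow_left₀ hUβ.le p3 _
  have hy2' : y0 ^ (2 * n) ≤ 4 ^ n * R := by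
    have h1 : y0 ^ (2 * n) ≤ (2 * U ^ (-β)) ^ (2 * n) := pow_le_pow_left₀ hy0p.le p4 _
    have h2 : (2 * U ^ (-β)) ^ (2 * n) = 4 ^ n * R := by
      rw [mul_pow, eβ, pow_mul]
      norm_num
    exact h1.trans h2.le
  set ρ0 := x0 ^ (2 * m) + y0 ^ (2 * n) with hρ0
  have hρ1 : R ≤ ρ0 := by rw [hρ0]; linarith
  have hρ2 : ρ0 ≤ M * R := by rw [hρ0, hM, add_mul, one_mul]; linarith
  have hρp : 0 < ρ0 := hRp.trans_le hρ1
  set v := (ρ0 ^ k)⁻¹ with hv
  have hvp : 0 < v := by rw [hv]; positivity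
  have hv2 : v ^ (-(1 / (k:ℝ))) = ρ0 := by
    rw [hv, inv_rpow (by positivity), ← rpow_natCast, ← rpow_mul hρp.le, ← rpow_neg hρp.le]
    have : -((k:ℝ) * -(1 / (k:ℝ))) = 1 := by field_simp
    rw [this, rpow_one]
  have hv3 : U / M ^ k ≤ v := by
    rw [hv, ← hRk, inv_eq_one_div, inv_eq_one_div, div_div]
    apply one_div_le_one_div_of_le (by positivity)
    rw [mul_comm, ← mul_pow]
    exact pow_le_pow_left₀ hρp.le hρ2 _
  have hv0 : u 0 ≤ v := (le_max_left _ _).trans (hUdiv.trans hv3)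
  have hvu1 : u₁ ≤ v := (le_max_left _ _).trans ((le_max_right _ _).trans (hUdiv.trans hv3))
  have hvD : D0 * M + 1 ≤ v :=
    (le_max_right _ _).trans ((le_max_right _ _).trans (hUdiv.trans hv3))
  obtain ⟨t₀, ht₀, hut₀⟩ := S.exists_level hv0
  -- comparison of levels
  have hcomp : ∀ t, 0 ≤ t → u t ≤ v + D0 → ρ0 - u t ^ (-(1 / (k:ℝ))) ≤ D0 * (ρ0 / v) := by
    intro t ht h
    have h1 := bern S.hk hvp hD0p.le
    rw [hv2] at h1
    have h2 : (v + D0) ^ (-(1 / (k:ℝ))) ≤ u t ^ (-(1 / (k:ℝ))) :=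
      rpow_le_rpow_of_nonpos (S.hu t ht) h (by
        have : 0 < 1 / (k:ℝ) := by positivity
        linarith)
    linarith
  have hsmall : D0 * (ρ0 / v) < y0 ^ (2 * n) := by
    have h1 : D0 * ρ0 < y0 ^ (2 * n) * v := by
      have i1 : D0 * ρ0 ≤ D0 * (M * R) := mul_le_mul_of_nonneg_left hρ2 hD0p.le
      have i2 : R * v ≤ y0 ^ (2 * n) * v := mul_le_mul_of_nonneg_right hy2 hvp.le
      have i3 : D0 * M * R < v * R := mul_lt_mul_of_pos_right (by linarith) hRp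
      nlinarith
    rw [← mul_div_assoc, div_lt_iff₀ hvp]
    exact h1
  have hfc : ContinuousOn (fun t => u t ^ (-α) * X t - x0) (Ici 0) := by
    refine ContinuousOn.sub (ContinuousOn.mul ?_ S.X_cont) continuousOn_const
    exact S.u_cont.rpow_const fun t ht => Or.inl (S.hu t ht).ne'
  have hDD : ∀ t, u t ≤ u t₀ + (36 * m * k + 3) ↔ u t ≤ v + D0 := by
    intro t; rw [hut₀]
  obtain ⟨t, ht1, ht2, ht3, ht4⟩ := S.cross ht₀ hfc
    (by
      intro t ht hY hX hu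
      rw [hDD] at hu
      have ht0 : 0 ≤ t := ht₀.trans ht
      rw [hX, mul_one]
      have h1 := hcomp t ht0 hu
      have h2 : x0 ^ (2 * m) < (u t ^ (-α)) ^ (2 * m) := by
        rw [rpow_al_pow (S.hu t ht0) S.m_pos]
        linarith
      have h3 := lt_of_pow_lt_pow_left₀ _ (rpow_pos_of_pos (S.hu t ht0) _).le h2
      linarith)
    (by
      intro t ht hY hX hu
      have ht0 : 0 ≤ t := ht₀.trans ht
      rw [hX]
      have := rpow_pos_of_pos (S.hu t ht0) (-α)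
      linarith)
  rw [hDD] at ht4
  have ht0 : 0 ≤ t := ht₀.trans ht1
  have hvut : v ≤ u t := by
    rw [← hut₀]; exact S.u_mono (mem_Ici.2 ht₀) (mem_Ici.2 ht0) ht1
  have hxt : u t ^ (-α) * X t = x0 := by linarith
  set y1 := u t ^ (-β) * Y t with hy1
  have hy1p : 0 ≤ y1 := mul_nonneg (rpow_pos_of_pos (S.hu t ht0) _).le ht3
  have hlev := S.level_eq ht0
  rw [← hα, ← hβ, hxt, ← hy1] at hlev
  have hle1 : u t ^ (-(1 / (k:ℝ))) ≤ ρ0 := by
    rw [← hv2]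
    exact rpow_le_rpow_of_nonpos hvp hvut (by
        have : 0 < 1 / (k:ℝ) := by positivity
        linarith)
  have hyy : y1 ≤ y0 := by
    have : y1 ^ (2 * n) ≤ y0 ^ (2 * n) := by rw [hρ0] at hle1; linarith
    exact (pow_le_pow_iff_left₀ hy1p hy0p.le (by have := S.n_pos; omega)).1 this
  have hdiff : (y0 - y1) * y0 ^ (2 * n - 1) ≤ D0 * (ρ0 / v) := by
    have h1 := hcomp t ht0 ht4
    have e1 : y0 ^ (2 * n) = y0 * y0 ^ (2 * n - 1) := by
      rw [← pow_succ']; congr 1; have := S.n_pos; omega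
    have e2 : y1 ^ (2 * n) = y1 * y1 ^ (2 * n - 1) := by
      rw [← pow_succ']; congr 1; have := S.n_pos; omega
    have h2 : y1 ^ (2 * n - 1) ≤ y0 ^ (2 * n - 1) := pow_le_pow_left₀ hy1p hyy _
    have h3 : y1 * y1 ^ (2 * n - 1) ≤ y1 * y0 ^ (2 * n - 1) := mul_le_mul_of_nonneg_left h2 hy1p
    have h4 : y0 ^ (2 * n) - y1 ^ (2 * n) ≤ D0 * (ρ0 / v) := by rw [hρ0] at h1 ⊢; linarith
    rw [e1, e2] at h4
    linarith
  have hfin : y0 - y1 ≤ 2 * D0 * M ^ (k + 1) * U ^ (-(1 + β)) := by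
    have e1 : y0 ^ (2 * n) = y0 * y0 ^ (2 * n - 1) := by
      rw [← pow_succ']; congr 1; have := S.n_pos; omega
    have h1 : (y0 - y1) * y0 ^ (2 * n) ≤ D0 * (ρ0 / v) * y0 := by
      rw [e1]
      calc (y0 - y1) * (y0 * y0 ^ (2 * n - 1)) = (y0 - y1) * y0 ^ (2 * n - 1) * y0 := by ring
        _ ≤ _ := mul_le_mul_of_nonneg_right hdiff hy0p.le
    have h2 : (y0 - y1) * R ≤ (y0 - y1) * y0 ^ (2 * n) :=
      mul_le_mul_of_nonneg_left hy2 (by linarith)
    have h3 : ρ0 / v ≤ M * R / (U / M ^ k) :=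
      div_le_div₀ (by positivity) hρ2 (by positivity) hv3
    have h4 : D0 * (ρ0 / v) * y0 ≤ D0 * (M * R / (U / M ^ k)) * (2 * U ^ (-β)) :=
      mul_le_mul (mul_le_mul_of_nonneg_left h3 hD0p.le) p4 hy0p.le (by positivity)
    have h5 : (y0 - y1) * R ≤ (2 * D0 * M ^ (k + 1) * U ^ (-(1 + β))) * R := by
      refine (h2.trans (h1.trans h4)).trans (le_of_eq ?_)
      have : U ^ (-(1 + β)) = U ^ (-β) / U := by
        rw [← rpow_sub_one hUp.ne']; congr 1; ring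
      rw [this]
      field_simp
      ring
    exact le_of_mul_le_mul_right h5 hRp
  -- the point on the curve
  let q : E2 := !₂[x0, τ * y1]
  have hqE : q ∈ E := hE q t ht0 (hvu1.trans hvut) (by simp [q, hxt]) (by simp [q, hy1])
  refine Metric.mem_cthickening_of_dist_le p q _ _ hqE ?_
  apply dist_le_of_vert
  · simp [q, hx0]
  · have : q 1 = τ * y1 := by simp [q]
    rw [this, hp1, ← mul_sub, abs_mul, hτ, one_mul, abs_of_nonneg (by linarith)]
    exact hfin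

end Sys

end Pool.Agent.V1185.Spiral
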