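import Pool.Agent.V1185.Spiral.Rot

open Set Real Filter Topology

namespace Pool.Agent.V1185.Spiral

/-- the correction polynomial -/
def hpoly (m n : ℕ) (a b : ℝ) : ℝ :=
  n * b ^ (2 * n) - m * a ^ (2 * m) - 6 * n * (a ^ 2 * b ^ (2 * n)) + 2 * m * (a ^ 2 * a ^ (2 * m))

lemma abs_le_one_of_pow {j : ℕ} (hj : 0 < j) {a : ℝ} (h : a ^ (2 * j) ≤ 1) : |a| ≤ 1 := by
  rw [← (even_two_mul j).pow_abs] at h
  exact (pow_le_one_iff_of_nonneg (abs_nonneg _) (by omega)).1 h

lemma exists_K {m n : ℕ} (hm : Odd m) (hn : Odd n) :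
    ∃ K : ℝ, 0 ≤ K ∧ ∀ a b : ℝ, a ^ (2 * m) + b ^ (2 * n) = 1 →
      1 / 2 ≤ K * (a ^ (m - 1) * b ^ (n - 1)) + hpoly m n a b := by
  have hm0 := hm.pos
  have hn0 := hn.pos
  set C : Set (ℝ × ℝ) := {p | p.1 ^ (2 * m) + p.2 ^ (2 * n) = 1 ∧ hpoly m n p.1 p.2 ≤ 1 / 2} with hC
  have hhc : Continuous (fun p : ℝ × ℝ => hpoly m n p.1 p.2) := by
    unfold hpoly; fun_prop
  have hsub : C ⊆ Icc (-1:ℝ) 1 ×ˢ Icc (-1:ℝ) 1 := by
    intro p hp
    have h1 : 0 ≤ p.1 ^ (2 * m) := by rw [pow_mul]; positivity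
    have h2 : 0 ≤ p.2 ^ (2 * n) := by rw [pow_mul]; positivity
    have h3 := hp.1
    exact ⟨abs_le.1 (abs_le_one_of_pow hm0 (by linarith)),
      abs_le.1 (abs_le_one_of_pow hn0 (by linarith))⟩
  have hclosed : IsClosed C := by
    apply IsClosed.and
    · exact isClosed_eq (by fun_prop) continuous_const
    · exact isClosed_le hhc continuous_const
  have hcomp : IsCompact C :=
    (isCompact_Icc.prod isCompact_Icc).of_isClosed_subset hclosed hsub
  have hE1 : Even (m - 1) := hm.tsub_odd odd_one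
  have hE2 : Even (n - 1) := hn.tsub_odd odd_one
  have hPnn : ∀ a b : ℝ, 0 ≤ a ^ (m - 1) * b ^ (n - 1) := fun a b =>
    mul_nonneg (hE1.pow_nonneg _) (hE2.pow_nonneg _)
  rcases C.eq_empty_or_nonempty with hemp | hne
  · refine ⟨0, le_rfl, fun a b hab => ?_⟩
    by_contra hcon
    push Not at hcon
    have : (a, b) ∈ C := ⟨hab, by simp only; linarith⟩
    rw [hemp] at this
    exact this
  obtain ⟨p0, hp0, hmin⟩ := hcomp.exists_isMinOn hne
    (f := fun p : ℝ × ℝ => p.1 ^ (m - 1) * p.2 ^ (n - 1)) (by fun_prop)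
  obtain ⟨p1, hp1, hmin1⟩ := hcomp.exists_isMinOn hne
    (f := fun p : ℝ × ℝ => hpoly m n p.1 p.2) hhc.continuousOn
  have hpos : 0 < p0.1 ^ (m - 1) * p0.2 ^ (n - 1) := by
    rcases (hPnn p0.1 p0.2).eq_or_lt with h | h
    · exfalso
      rcases mul_eq_zero.1 h.symm with h1 | h1
      · have ha : p0.1 = 0 := eq_zero_of_pow_eq_zero h1
        have h2 := hp0.1
        have h3 := hp0.2
        unfold hpoly at h3
        rw [ha, zero_pow (by omega), zero_add] at h2
        rw [ha, h2, zero_pow (by omega : 2 * m ≠ 0), zero_pow (by norm_num : 2 ≠ 0)] at h3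
        have : (1:ℝ) ≤ n := by exact_mod_cast hn0
        linarith
      · have hb : p0.2 = 0 := eq_zero_of_pow_eq_zero h1
        have h2 := hp0.1
        have h3 := hp0.2
        unfold hpoly at h3
        rw [hb, zero_pow (by omega), add_zero] at h2
        have h4 : p0.1 ^ 2 = 1 := by
          rw [pow_mul] at h2
          exact (pow_eq_one_iff_of_nonneg (by positivity) (by omega)).1 h2
        rw [hb, h2, h4, zero_pow (by omega : 2 * n ≠ 0)] at h3
        have : (1:ℝ) ≤ m := by exact_mod_cast hm0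
        linarith
    · exact h
  set δ := p0.1 ^ (m - 1) * p0.2 ^ (n - 1) with hδ
  refine ⟨(|hpoly m n p1.1 p1.2| + 1 / 2) / δ, by positivity, fun a b hab => ?_⟩
  by_cases hab2 : hpoly m n a b ≤ 1 / 2
  · have hmem : (a, b) ∈ C := ⟨hab, hab2⟩
    have h1 : δ ≤ a ^ (m - 1) * b ^ (n - 1) := hmin hmem
    have h2 : hpoly m n p1.1 p1.2 ≤ hpoly m n a b := hmin1 hmem
    have h3 : |hpoly m n p1.1 p1.2| + 1 / 2 ≤
        (|hpoly m n p1.1 p1.2| + 1 / 2) / δ * (a ^ (m - 1) * b ^ (n - 1)) := by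
      rw [div_mul_eq_mul_div, le_div_iff₀ hpos]
      exact mul_le_mul_of_nonneg_left h1 (by positivity)
    have h4 := neg_abs_le (hpoly m n p1.1 p1.2)
    linarith
  · push Not at hab2
    have : 0 ≤ (|hpoly m n p1.1 p1.2| + 1 / 2) / δ * (a ^ (m - 1) * b ^ (n - 1)) :=
      mul_nonneg (by positivity) (hPnn a b)
    linarith

variable {m n k : ℕ} {u X Y w : ℝ → ℝ}

/-- exponents -/
noncomputable def al (m k : ℕ) : ℝ := 1 / (2 * m * k)

lemma al_pos {m k : ℕ} (hm : 0 < m) (hk : 0 < k) : 0 < al m k := by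
  unfold al
  have : (0:ℝ) < m := by exact_mod_cast hm
  have : (0:ℝ) < k := by exact_mod_cast hk
  positivity

lemma al_le_half {m k : ℕ} (hm : 0 < m) (hk : 0 < k) : al m k ≤ 1 / 2 := by
  unfold al
  have h1 : (1:ℝ) ≤ m := by exact_mod_cast hm
  have h2 : (1:ℝ) ≤ k := by exact_mod_cast hk
  apply one_div_le_one_div_of_le (by norm_num)
  nlinarith

lemma al_lt {m n k : ℕ} (hn : 0 < n) (hk : 0 < k) (hnm : n < m) : al m k < al n k := by
  unfold al
  have h1 : (0:ℝ) < n := by exact_mod_cast hn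
  have h2 : (0:ℝ) < k := by exact_mod_cast hk
  have h3 : (n:ℝ) < m := by exact_mod_cast hnm
  apply one_div_lt_one_div_of_lt (by positivity)
  have : 2 * (n:ℝ) < 2 * m := by linarith
  exact mul_lt_mul_of_pos_right this h2

namespace Sys

/-- The arclength majorant. -/
lemma exists_V (S : Sys m n k u X Y w) : ∃ (V : ℝ → ℝ) (C : ℝ), 0 < C ∧
    (∀ t, 0 ≤ t → 0 ≤ V t ∧ V t ≤ C * u t ^ (1 - al m k)) ∧ MonotoneOn V (Ici 0) ∧
    (∀ s t, 0 ≤ s → s ≤ t →
      |u t ^ (-al m k) * X t - u s ^ (-al m k) * X s| ≤ V t - V s ∧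
      |u t ^ (-al n k) * Y t - u s ^ (-al n k) * Y s| ≤ V t - V s) := by
  obtain ⟨K, hK0, hK⟩ := exists_K S.hm S.hn
  have hm0 : (0:ℝ) < m := by exact_mod_cast S.m_pos
  have hn0 : (0:ℝ) < n := by exact_mod_cast S.n_pos
  have hk0 : (0:ℝ) < k := by exact_mod_cast (lt_of_lt_of_le one_pos S.hk)
  have hm1 : (1:ℝ) ≤ m := by exact_mod_cast S.m_pos
  have hnm : (n:ℝ) ≤ m := by exact_mod_cast S.hnm.le
  have hkN : 0 < k := S.hk
  have ha0 := al_pos S.m_pos hkN
  have ha1 := al_le_half S.m_pos hkN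
  have hb0 := al_pos S.n_pos hkN
  have hb1 := al_le_half S.n_pos hkN
  have hab := al_lt S.n_pos hkN S.hnm
  set α := al m k with hα
  set β := al n k with hβ
  set A : ℝ := K / (2 * m * n * k) + 1 with hA
  have hA1 : 1 ≤ A := by rw [hA]; have : 0 ≤ K / (2 * m * n * k) := by positivity
                         linarith
  set u0 := u 0 with hu0
  have hu0p : 0 < u0 := S.hu 0 le_rfl
  -- Ψ
  let Ψ : ℝ → ℝ := fun t => A * u t + (-(X t * Y t) + 2 * (X t ^ 3 * Y t)) + 3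
  let Ψ' : ℝ → ℝ := fun t => 2 * m * n * k * (X t ^ (m - 1) * Y t ^ (n - 1)) * w t
    + (K * (X t ^ (m - 1) * Y t ^ (n - 1)) + hpoly m n (X t) (Y t)) * w t
  have hΨd : ∀ t, 0 ≤ t → HasDerivAt Ψ (Ψ' t) t := by
    intro t ht
    have h1 := (S.dX t ht).mul (S.dY t ht)
    have h2 := ((S.dX t ht).pow 3).mul (S.dY t ht)
    have h3 := (((S.du t ht).const_mul A).add (h1.neg.add (h2.const_mul 2))).add_const 3
    refine h3.congr_deriv ?_
    have e1 : X t ^ (2 * m) = X t * X t ^ (2 * m - 1) := by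
      rw [← pow_succ']; congr 1; have := S.m_pos; omega
    have e2 : Y t ^ (2 * n) = Y t ^ (2 * n - 1) * Y t := by
      rw [← pow_succ]; congr 1; have := S.n_pos; omega
    simp only [Ψ', hpoly, Pi.pow_apply]
    rw [e1, e2, hA]
    push_cast
    field_simp
    ring
  have hΨ' : ∀ t, 0 ≤ t → 2 * m * n * k * (X t ^ (m - 1) * Y t ^ (n - 1)) * w t + w t / 2
      ≤ Ψ' t := by
    intro t ht
    have h1 := hK (X t) (Y t) (S.lev t ht)
    have h2 := (S.hw t ht).le
    simp only [Ψ']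
    nlinarith [mul_le_mul_of_nonneg_right h1 h2]
  have hgb : ∀ t, 0 ≤ t → |-(X t * Y t) + 2 * (X t ^ 3 * Y t)| ≤ 3 := by
    intro t ht
    have h1 := S.absX_le ht
    have h2 := S.absY_le ht
    have h3 : |X t * Y t| ≤ 1 := by
      rw [abs_mul]; nlinarith [abs_nonneg (X t), abs_nonneg (Y t)]
    have h4 : |X t ^ 3 * Y t| ≤ 1 := by
      rw [abs_mul, abs_pow]
      have : |X t| ^ 3 ≤ 1 := pow_le_one₀ (abs_nonneg _) h1
      have h5 : 0 ≤ |X t| ^ 3 := by positivity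
      nlinarith [abs_nonneg (Y t)]
    rw [abs_le] at *
    constructor <;> linarith [h3.1, h3.2, h4.1, h4.2]
  have hΨl : ∀ t, 0 ≤ t → u t ≤ Ψ t := by
    intro t ht
    have h1 := (abs_le.1 (hgb t ht)).1
    have h2 := (S.hu t ht).le
    simp only [Ψ]
    nlinarith [mul_le_mul_of_nonneg_right hA1 h2]
  have hum : ∀ t, 0 ≤ t → u0 ≤ u t := fun t ht =>
    S.u_mono (mem_Ici.2 le_rfl) (mem_Ici.2 ht) ht
  set B : ℝ := A + 6 / u0 with hB
  have hBp : 0 < B := by rw [hB]; positivity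
  have hΨu : ∀ t, 0 ≤ t → Ψ t ≤ B * u t := by
    intro t ht
    have h1 := (abs_le.1 (hgb t ht)).2
    have h2 : 6 ≤ 6 / u0 * u t := by
      rw [div_mul_eq_mul_div, le_div_iff₀ hu0p]
      nlinarith [hum t ht]
    simp only [Ψ]
    rw [hB, add_mul]
    linarith
  have hΨp : ∀ t, 0 ≤ t → 0 < Ψ t := fun t ht => (S.hu t ht).trans_le (hΨl t ht)
  set c1 : ℝ := (1 / u0 + 2 * m) * (1 + u0 ^ (α - β)) with hc1
  have hc1p : 0 < c1 := by rw [hc1]; positivity
  set D : ℝ := c1 * B ^ α / (1 - α) with hD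
  have h1α : 0 < 1 - α := by linarith
  have hDp : 0 < D := by rw [hD]; positivity
  let V : ℝ → ℝ := fun t => D * Ψ t ^ (1 - α)
  have hVd : ∀ t, 0 ≤ t → HasDerivAt V (D * (Ψ' t * (1 - α) * Ψ t ^ (1 - α - 1))) t := by
    intro t ht
    exact ((hΨd t ht).rpow_const (Or.inl (hΨp t ht).ne')).const_mul D
  have hV' : ∀ t, 0 ≤ t → c1 * (u t ^ (-α) *
      (2 * m * n * k * (X t ^ (m - 1) * Y t ^ (n - 1)) * w t + w t / 2))
      ≤ D * (Ψ' t * (1 - α) * Ψ t ^ (1 - α - 1)) := by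
    intro t ht
    have h1 : B ^ (-α) * u t ^ (-α) ≤ Ψ t ^ (1 - α - 1) := by
      have e : 1 - α - 1 = -α := by ring
      rw [e, ← mul_rpow hBp.le (S.hu t ht).le]
      exact rpow_le_rpow_of_nonpos (hΨp t ht) (hΨu t ht) (by linarith)
    have h2 := hΨ' t ht
    have h3 : 0 ≤ 2 * m * n * k * (X t ^ (m - 1) * Y t ^ (n - 1)) * w t + w t / 2 := by
      have := S.du_nonneg ht
      have := S.hw t ht
      positivity
    have h4 : 0 ≤ Ψ' t := h3.trans h2
    have h5 : D * (1 - α) = c1 * B ^ α := by rw [hD]; field_simp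
    have h6 : D * (Ψ' t * (1 - α) * Ψ t ^ (1 - α - 1))
        = c1 * B ^ α * (Ψ' t * Ψ t ^ (1 - α - 1)) := by rw [← h5]; ring
    rw [h6]
    have hBB : B ^ α * B ^ (-α) = 1 := by rw [← rpow_add hBp]; simp
    have h7 : (2 * m * n * k * (X t ^ (m - 1) * Y t ^ (n - 1)) * w t + w t / 2) *
        (B ^ (-α) * u t ^ (-α)) ≤ Ψ' t * Ψ t ^ (1 - α - 1) := by
      have hpos : 0 ≤ B ^ (-α) * u t ^ (-α) := by
        have := S.hu t ht
        positivity
      exact mul_le_mul h2 h1 hpos h4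
    have h8 : 0 ≤ c1 * B ^ α := by positivity
    calc c1 * (u t ^ (-α) *
          (2 * m * n * k * (X t ^ (m - 1) * Y t ^ (n - 1)) * w t + w t / 2))
        = c1 * B ^ α * ((2 * m * n * k * (X t ^ (m - 1) * Y t ^ (n - 1)) * w t + w t / 2) *
        (B ^ (-α) * u t ^ (-α))) := by
          calc _ = c1 * (B ^ α * B ^ (-α)) * (u t ^ (-α) *
            (2 * m * n * k * (X t ^ (m - 1) * Y t ^ (n - 1)) * w t + w t / 2)) := by
                rw [hBB, mul_one]
            _ = _ := by ring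
      _ ≤ _ := mul_le_mul_of_nonneg_left h7 h8
  -- derivative bounds for the coordinates
  have hcoord : ∀ (γ : ℝ) (Z Z' : ℝ → ℝ), α ≤ γ → γ ≤ 1 → 0 < γ →
      (∀ t, 0 ≤ t → HasDerivAt Z (Z' t) t) → (∀ t, 0 ≤ t → |Z t| ≤ 1) →
      (∀ t, 0 ≤ t → |Z' t| ≤ m * w t) →
      (∀ t, 0 ≤ t → u t ^ (-γ) ≤ (1 + u0 ^ (α - β)) * u t ^ (-α)) →
      ∀ s t, 0 ≤ s → s ≤ t → |u t ^ (-γ) * Z t - u s ^ (-γ) * Z s| ≤ V t - V s := by
    intro γ Z Z' hγα hγ1 hγ0 hZ hZb hZ'b hcmp s t hs hst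
    have hd : ∀ τ, 0 ≤ τ → HasDerivAt (fun τ => u τ ^ (-γ) * Z τ)
        ((2 * m * n * k * (X τ ^ (m - 1) * Y τ ^ (n - 1)) * w τ) * (-γ) * u τ ^ (-γ - 1) * Z τ
          + u τ ^ (-γ) * Z' τ) τ := by
      intro τ hτ
      exact ((S.du τ hτ).rpow_const (Or.inl (S.hu τ hτ).ne')).mul (hZ τ hτ)
    have hbd : ∀ τ, 0 ≤ τ →
        |(2 * m * n * k * (X τ ^ (m - 1) * Y τ ^ (n - 1)) * w τ) * (-γ) * u τ ^ (-γ - 1) * Z τ
          + u τ ^ (-γ) * Z' τ| ≤ D * (Ψ' τ * (1 - α) * Ψ τ ^ (1 - α - 1)) := by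
      intro τ hτ
      refine le_trans ?_ (hV' τ hτ)
      have hup := S.hu τ hτ
      have g0 := S.du_nonneg hτ
      set G := 2 * m * n * k * (X τ ^ (m - 1) * Y τ ^ (n - 1)) * w τ with hG
      have g1 : u τ ^ (-γ - 1) = u τ ^ (-γ) / u τ := rpow_sub_one hup.ne' _
      have g2 : 0 < u τ ^ (-γ) := rpow_pos_of_pos hup _
      have g3 := hZb τ hτ
      have g4 := hZ'b τ hτ
      have g5 := S.hw τ hτ
      have g6 : |G * (-γ) * u τ ^ (-γ - 1) * Z τ| ≤ u τ ^ (-γ) * (G / u0) := by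
        rw [g1, abs_mul, abs_mul, abs_mul, abs_neg, abs_of_nonneg g0, abs_of_pos hγ0,
          abs_of_pos (by positivity : 0 < u τ ^ (-γ) / u τ)]
        have i1 : G * γ * (u τ ^ (-γ) / u τ) * |Z τ| ≤ G * 1 * (u τ ^ (-γ) / u0) * 1 := by
          have j1 : G * γ ≤ G * 1 := mul_le_mul_of_nonneg_left hγ1 g0
          have j2 : u τ ^ (-γ) / u τ ≤ u τ ^ (-γ) / u0 :=
            div_le_div_of_nonneg_left g2.le hu0p (hum τ hτ)
          have j3 : G * γ * (u τ ^ (-γ) / u τ) ≤ G * 1 * (u τ ^ (-γ) / u0) :=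
            mul_le_mul j1 j2 (by positivity) (by positivity)
          exact mul_le_mul j3 g3 (abs_nonneg _) (by positivity)
        calc _ ≤ G * 1 * (u τ ^ (-γ) / u0) * 1 := i1
          _ = _ := by ring
      have g7 : |u τ ^ (-γ) * Z' τ| ≤ u τ ^ (-γ) * (m * w τ) := by
        rw [abs_mul, abs_of_pos g2]
        exact mul_le_mul_of_nonneg_left g4 g2.le
      have g8 : |G * (-γ) * u τ ^ (-γ - 1) * Z τ + u τ ^ (-γ) * Z' τ|
          ≤ u τ ^ (-γ) * (G / u0 + m * w τ) := by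
        calc _ ≤ |G * (-γ) * u τ ^ (-γ - 1) * Z τ| + |u τ ^ (-γ) * Z' τ| := abs_add_le _ _
          _ ≤ u τ ^ (-γ) * (G / u0) + u τ ^ (-γ) * (m * w τ) := add_le_add g6 g7
          _ = _ := by ring
      refine g8.trans ?_
      have g9 : G / u0 + m * w τ ≤ (1 / u0 + 2 * m) * (G + w τ / 2) := by
        have : (1 / u0 + 2 * m) * (G + w τ / 2) = G / u0 + m * w τ + 2 * m * G + w τ / (2 * u0) := by
          field_simp
          ring
        rw [this]
        have : 0 ≤ 2 * m * G + w τ / (2 * u0) := by positivity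
        linarith
      have g10 := hcmp τ hτ
      calc u τ ^ (-γ) * (G / u0 + m * w τ)
          ≤ ((1 + u0 ^ (α - β)) * u τ ^ (-α)) * ((1 / u0 + 2 * m) * (G + w τ / 2)) :=
            mul_le_mul g10 g9 (by positivity) (by positivity)
        _ = c1 * (u τ ^ (-α) * (G + w τ / 2)) := by rw [hc1]; ring
    have hsub : Icc s t ⊆ Ici 0 := fun τ hτ => hs.trans hτ.1
    have m1 : MonotoneOn (fun τ => V τ - u τ ^ (-γ) * Z τ) (Icc s t) := by
      refine monotoneOn_of_deriv_nonneg (convex_Icc s t)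
        (fun τ hτ => ((hVd τ (hsub hτ)).sub (hd τ (hsub hτ))).continuousAt.continuousWithinAt)
        (fun τ hτ => ((hVd τ (hsub (interior_subset hτ))).sub
          (hd τ (hsub (interior_subset hτ)))).differentiableAt.differentiableWithinAt) ?_
      intro τ hτ
      have hτ0 := hsub (interior_subset hτ)
      have hdd : HasDerivAt (fun τ => V τ - u τ ^ (-γ) * Z τ) _ τ := (hVd τ hτ0).sub (hd τ hτ0)
      rw [hdd.deriv]
      have := (abs_le.1 (hbd τ hτ0)).2
      linarith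
    have m2 : MonotoneOn (fun τ => V τ + u τ ^ (-γ) * Z τ) (Icc s t) := by
      refine monotoneOn_of_deriv_nonneg (convex_Icc s t)
        (fun τ hτ => ((hVd τ (hsub hτ)).add (hd τ (hsub hτ))).continuousAt.continuousWithinAt)
        (fun τ hτ => ((hVd τ (hsub (interior_subset hτ))).add
          (hd τ (hsub (interior_subset hτ)))).differentiableAt.differentiableWithinAt) ?_
      intro τ hτ
      have hτ0 := hsub (interior_subset hτ)
      have hdd : HasDerivAt (fun τ => V τ + u τ ^ (-γ) * Z τ) _ τ := (hVd τ hτ0).add (hd τ hτ0)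
      rw [hdd.deriv]
      have := (abs_le.1 (hbd τ hτ0)).1
      linarith
    have r1 := m1 (left_mem_Icc.2 hst) (right_mem_Icc.2 hst) hst
    have r2 := m2 (left_mem_Icc.2 hst) (right_mem_Icc.2 hst) hst
    simp only at r1 r2
    rw [abs_le]
    constructor <;> linarith
  refine ⟨V, D * B ^ (1 - α), by positivity, ?_, ?_, ?_⟩
  · intro t ht
    have h1 := hΨp t ht
    refine ⟨by simp only [V]; positivity, ?_⟩
    simp only [V]
    rw [mul_assoc, ← mul_rpow hBp.le (S.hu t ht).le]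
    exact mul_le_mul_of_nonneg_left (rpow_le_rpow h1.le (hΨu t ht) h1α.le) hDp.le
  · intro s hs t ht hst
    have hmono : Ψ s ≤ Ψ t := by
      have m1 : MonotoneOn Ψ (Ici 0) := by
        refine monotoneOn_of_deriv_nonneg (convex_Ici 0)
          (fun τ hτ => (hΨd τ hτ).continuousAt.continuousWithinAt)
          (fun τ hτ => (hΨd τ (interior_subset hτ)).differentiableAt.differentiableWithinAt) ?_
        intro τ hτ
        have hτ0 : (0:ℝ) ≤ τ := interior_subset hτ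
        rw [(hΨd τ hτ0).deriv]
        have h3 : 0 ≤ 2 * m * n * k * (X τ ^ (m - 1) * Y τ ^ (n - 1)) * w τ + w τ / 2 := by
          have := S.du_nonneg hτ0
          have := S.hw τ hτ0
          positivity
        exact h3.trans (hΨ' τ hτ0)
      exact m1 hs ht hst
    simp only [V]
    exact mul_le_mul_of_nonneg_left (rpow_le_rpow (hΨp s hs).le hmono h1α.le) hDp.le
  · intro s t hs hst
    have hXb : ∀ t, 0 ≤ t → |-(n * Y t ^ (2 * n - 1) * w t)| ≤ m * w t := by
      intro t ht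
      have h1 : |Y t ^ (2 * n - 1)| ≤ 1 := by
        rw [abs_pow]; exact pow_le_one₀ (abs_nonneg _) (S.absY_le ht)
      have h2 := (S.hw t ht).le
      rw [abs_neg, abs_mul, abs_mul, abs_of_pos hn0, abs_of_nonneg h2]
      have h3 : n * |Y t ^ (2 * n - 1)| ≤ m * 1 := mul_le_mul hnm h1 (abs_nonneg _) hm0.le
      calc _ ≤ m * 1 * w t := mul_le_mul_of_nonneg_right h3 h2
        _ = _ := by ring
    have hYb : ∀ t, 0 ≤ t → |m * X t ^ (2 * m - 1) * w t| ≤ m * w t := by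
      intro t ht
      have h1 : |X t ^ (2 * m - 1)| ≤ 1 := by
        rw [abs_pow]; exact pow_le_one₀ (abs_nonneg _) (S.absX_le ht)
      have h2 := (S.hw t ht).le
      rw [abs_mul, abs_mul, abs_of_pos hm0, abs_of_nonneg h2]
      have h3 : m * |X t ^ (2 * m - 1)| ≤ m * 1 := mul_le_mul_of_nonneg_left h1 hm0.le
      calc _ ≤ m * 1 * w t := mul_le_mul_of_nonneg_right h3 h2
        _ = _ := by ring
    constructor
    · refine hcoord α X _ le_rfl (by linarith) ha0 S.dX (fun t ht => S.absX_le ht) hXb ?_ s t hs hst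
      intro t ht
      have h1 : 0 < u t ^ (-α) := rpow_pos_of_pos (S.hu t ht) _
      have h2 : 0 < u0 ^ (α - β) := rpow_pos_of_pos hu0p _
      nlinarith
    · refine hcoord β Y _ hab.le (by linarith) hb0 S.dY (fun t ht => S.absY_le ht) hYb ?_ s t hs hst
      intro t ht
      have h1 : 0 < u t ^ (-α) := rpow_pos_of_pos (S.hu t ht) _
      have h3 : u t ^ (-β) = u t ^ (α - β) * u t ^ (-α) := by
        rw [← rpow_add (S.hu t ht)]; congr 1; ring
      rw [h3]
      apply mul_le_mul_of_nonneg_right _ h1.le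
      have : u t ^ (α - β) ≤ u0 ^ (α - β) :=
        rpow_le_rpow_of_nonpos hu0p (hum t ht) (by linarith)
      linarith

end Sys

end Pool.Agent.V1185.Spiral
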