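import Mathlib

open Set Real Filter Topology

namespace Pool.Agent.V1185.Spiral

/-- The normalised system. -/
structure Sys (m n k : ℕ) (u X Y w : ℝ → ℝ) : Prop where
  hm : Odd m
  hn : Odd n
  hnm : n < m
  hk : 1 ≤ k
  hu : ∀ t, 0 ≤ t → 0 < u t
  hw : ∀ t, 0 ≤ t → 0 < w t
  du : ∀ t, 0 ≤ t → HasDerivAt u (2 * m * n * k * (X t ^ (m - 1) * Y t ^ (n - 1)) * w t) t
  dX : ∀ t, 0 ≤ t → HasDerivAt X (-(n * Y t ^ (2 * n - 1) * w t)) t
  dY : ∀ t, 0 ≤ t → HasDerivAt Y (m * X t ^ (2 * m - 1) * w t) t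
  lev : ∀ t, 0 ≤ t → X t ^ (2 * m) + Y t ^ (2 * n) = 1
  lim : Tendsto u atTop atTop

variable {m n k : ℕ} {u X Y w : ℝ → ℝ}

namespace Sys

lemma n_pos (S : Sys m n k u X Y w) : 0 < n := S.hn.pos
lemma m_pos (S : Sys m n k u X Y w) : 0 < m := S.hm.pos

lemma neg (S : Sys m n k u X Y w) : Sys m n k u (fun t => -X t) (fun t => -Y t) w where
  hm := S.hm
  hn := S.hn
  hnm := S.hnm
  hk := S.hk
  hu := S.hu
  hw := S.hw
  du := by
    intro t ht
    refine (S.du t ht).congr_deriv ?_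
    have h1 : Even (m - 1) := S.hm.tsub_odd odd_one
    have h2 : Even (n - 1) := S.hn.tsub_odd odd_one
    simp only [h1.neg_pow, h2.neg_pow]
  dX := by
    intro t ht
    refine (S.dX t ht).neg.congr_deriv ?_
    have h2 : Odd (2 * n - 1) := by
      have := S.n_pos
      exact ⟨n - 1, by omega⟩
    simp only [h2.neg_pow]
    ring
  dY := by
    intro t ht
    refine (S.dY t ht).neg.congr_deriv ?_
    have h2 : Odd (2 * m - 1) := by
      have := S.m_pos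
      exact ⟨m - 1, by omega⟩
    simp only [h2.neg_pow]
    ring
  lev := by
    intro t ht
    have h1 : Even (2 * m) := even_two_mul m
    have h2 : Even (2 * n) := even_two_mul n
    simp only [h1.neg_pow, h2.neg_pow]
    exact S.lev t ht
  lim := S.lim

lemma absX_le (S : Sys m n k u X Y w) {t : ℝ} (ht : 0 ≤ t) : |X t| ≤ 1 := by
  have h := S.lev t ht
  have h1 : 0 ≤ Y t ^ (2 * n) := by rw [pow_mul]; positivity
  have h2 : |X t| ^ (2 * m) ≤ 1 := by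
    rw [(even_two_mul m).pow_abs]; linarith
  exact (pow_le_one_iff_of_nonneg (abs_nonneg _) (by have := S.m_pos; omega)).1 h2

lemma absY_le (S : Sys m n k u X Y w) {t : ℝ} (ht : 0 ≤ t) : |Y t| ≤ 1 := by
  have h := S.lev t ht
  have h1 : 0 ≤ X t ^ (2 * m) := by rw [pow_mul]; positivity
  have h2 : |Y t| ^ (2 * n) ≤ 1 := by
    rw [(even_two_mul n).pow_abs]; linarith
  exact (pow_le_one_iff_of_nonneg (abs_nonneg _) (by have := S.n_pos; omega)).1 h2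

lemma XY_nonneg (S : Sys m n k u X Y w) (t : ℝ) : 0 ≤ X t ^ (m - 1) * Y t ^ (n - 1) :=
  mul_nonneg ((S.hm.tsub_odd odd_one).pow_nonneg _) ((S.hn.tsub_odd odd_one).pow_nonneg _)

lemma XY_le (S : Sys m n k u X Y w) {t : ℝ} (ht : 0 ≤ t) : X t ^ (m - 1) * Y t ^ (n - 1) ≤ 1 := by
  have h1 := S.absX_le ht
  have h2 := S.absY_le ht
  have h3 : X t ^ (m - 1) ≤ 1 := by
    rw [← (S.hm.tsub_odd odd_one).pow_abs]
    exact pow_le_one₀ (abs_nonneg _) h1
  have h4 : Y t ^ (n - 1) ≤ 1 := by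
    rw [← (S.hn.tsub_odd odd_one).pow_abs]
    exact pow_le_one₀ (abs_nonneg _) h2
  have h5 : 0 ≤ Y t ^ (n - 1) := (S.hn.tsub_odd odd_one).pow_nonneg _
  have h6 : 0 ≤ X t ^ (m - 1) := (S.hm.tsub_odd odd_one).pow_nonneg _
  nlinarith

lemma du_nonneg (S : Sys m n k u X Y w) {t : ℝ} (ht : 0 ≤ t) :
    0 ≤ 2 * m * n * k * (X t ^ (m - 1) * Y t ^ (n - 1)) * w t := by
  have := S.XY_nonneg t
  have := (S.hw t ht).le
  positivity

lemma u_cont (S : Sys m n k u X Y w) : ContinuousOn u (Ici 0) := fun t ht =>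
  (S.du t ht).continuousAt.continuousWithinAt

lemma Y_cont (S : Sys m n k u X Y w) : ContinuousOn Y (Ici 0) := fun t ht =>
  (S.dY t ht).continuousAt.continuousWithinAt

lemma X_cont (S : Sys m n k u X Y w) : ContinuousOn X (Ici 0) := fun t ht =>
  (S.dX t ht).continuousAt.continuousWithinAt

lemma u_mono (S : Sys m n k u X Y w) : MonotoneOn u (Ici 0) := by
  refine monotoneOn_of_deriv_nonneg (convex_Ici 0) S.u_cont ?_ ?_
  · intro t ht
    rw [interior_Ici] at ht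
    exact (S.du t (le_of_lt ht)).differentiableAt.differentiableWithinAt
  · intro t ht
    rw [interior_Ici] at ht
    rw [(S.du t (le_of_lt ht)).deriv]
    exact S.du_nonneg (le_of_lt ht)

/-- While `Y ≥ 0`, the quantity `u` grows by a bounded amount. -/
lemma grow (S : Sys m n k u X Y w) {s t : ℝ} (hs : 0 ≤ s) (hst : s ≤ t)
    (hY : ∀ τ ∈ Icc s t, 0 ≤ Y τ) : u t ≤ u s + 12 * m * k := by
  have hanti : AntitoneOn (fun τ => u τ + 4 * m * k * (X τ - X τ * Y τ / 2)) (Icc s t) := by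
    have hder : ∀ τ ∈ Icc s t, HasDerivAt (fun τ => u τ + 4 * m * k * (X τ - X τ * Y τ / 2))
        (2 * m * n * k * (X τ ^ (m - 1) * Y τ ^ (n - 1)) * w τ + 4 * m * k *
          (-(n * Y τ ^ (2 * n - 1) * w τ) - (-(n * Y τ ^ (2 * n - 1) * w τ) * Y τ
            + X τ * (m * X τ ^ (2 * m - 1) * w τ)) / 2)) τ := by
      intro τ hτ
      have h0 : 0 ≤ τ := hs.trans hτ.1
      exact (S.du τ h0).add (((S.dX τ h0).sub (((S.dX τ h0).mul (S.dY τ h0)).div_const 2)).const_mul _)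
    refine antitoneOn_of_deriv_nonpos (convex_Icc s t)
      (fun τ hτ => (hder τ hτ).continuousAt.continuousWithinAt)
      (fun τ hτ => (hder τ (interior_subset hτ)).differentiableAt.differentiableWithinAt) ?_
    intro τ hτ
    have hτ' := interior_subset hτ
    have h0 : 0 ≤ τ := hs.trans hτ'.1
    rw [(hder τ hτ').deriv]
    have hw := (S.hw τ h0).le
    have e1 : X τ * X τ ^ (2 * m - 1) = X τ ^ (2 * m) := by
      rw [← pow_succ']; congr 1; have := S.m_pos; omega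
    have e2 : Y τ ^ (2 * n - 1) * Y τ = Y τ ^ (2 * n) := by
      rw [← pow_succ]; congr 1; have := S.n_pos; omega
    have hy0 := hY τ hτ'
    have hy1 : Y τ ≤ 1 := (le_abs_self _).trans (S.absY_le h0)
    have h1 : Y τ ^ (2 * n) ≤ Y τ ^ (2 * n - 1) := by
      rw [← e2]
      have := pow_nonneg hy0 (2 * n - 1)
      nlinarith
    have h2 := S.lev τ h0
    have h3 := S.XY_le h0
    have h4 : 0 ≤ X τ ^ (2 * m) := by rw [pow_mul]; positivity
    have h5 : 0 ≤ Y τ ^ (2 * n) := by rw [pow_mul]; positivity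
    have hmn : (n:ℝ) ≤ m := by exact_mod_cast S.hnm.le
    have hn0 : (0:ℝ) ≤ n := Nat.cast_nonneg n
    -- the bracket
    have hb : (-(n * Y τ ^ (2 * n - 1) * w τ) - (-(n * Y τ ^ (2 * n - 1) * w τ) * Y τ
            + X τ * (m * X τ ^ (2 * m - 1) * w τ)) / 2) ≤ -(n / 2) * w τ := by
      have e3 : (-(n * Y τ ^ (2 * n - 1) * w τ) - (-(n * Y τ ^ (2 * n - 1) * w τ) * Y τ
            + X τ * (m * X τ ^ (2 * m - 1) * w τ)) / 2)
          = (-(n * Y τ ^ (2 * n - 1)) + (n * (Y τ ^ (2 * n - 1) * Y τ)) / 2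
            - m * (X τ * X τ ^ (2 * m - 1)) / 2) * w τ := by ring
      rw [e3, e1, e2]
      apply mul_le_mul_of_nonneg_right _ hw
      nlinarith [mul_le_mul_of_nonneg_left h1 hn0, mul_le_mul_of_nonneg_right hmn h4]
    have hk0 : (0:ℝ) ≤ 4 * m * k := by positivity
    have h6 : 2 * m * n * k * (X τ ^ (m - 1) * Y τ ^ (n - 1)) * w τ ≤ 2 * m * n * k * w τ := by
      have : 2 * m * n * k * (X τ ^ (m - 1) * Y τ ^ (n - 1)) ≤ 2 * m * n * (k:ℝ) * 1 :=
        mul_le_mul_of_nonneg_left h3 (by positivity)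
      calc _ ≤ 2 * m * n * (k:ℝ) * 1 * w τ := mul_le_mul_of_nonneg_right this hw
        _ = _ := by ring
    nlinarith [mul_le_mul_of_nonneg_left hb hk0]
  have h := hanti (left_mem_Icc.2 hst) (right_mem_Icc.2 hst) hst
  simp only at h
  have hb : ∀ τ, 0 ≤ τ → |X τ - X τ * Y τ / 2| ≤ 3 / 2 := by
    intro τ hτ
    have h1 := S.absX_le hτ
    have h2 := S.absY_le hτ
    have h3 : |X τ * Y τ| ≤ 1 := by
      rw [abs_mul]
      nlinarith [abs_nonneg (X τ), abs_nonneg (Y τ)]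
    rw [abs_le] at *
    constructor <;> linarith [h1.1, h1.2, h3.1, h3.2]
  have h1 := (abs_le.1 (hb s hs)).2
  have h2 := (abs_le.1 (hb t (hs.trans hst))).1
  have hk0 : (0:ℝ) ≤ 4 * m * k := by positivity
  nlinarith [mul_le_mul_of_nonneg_left h1 hk0, mul_le_mul_of_nonneg_left h2 hk0]

/-- On the axis `Y = 0` one has `X = ± 1`. -/
lemma X_eq (S : Sys m n k u X Y w) {t : ℝ} (ht : 0 ≤ t) (hY : Y t = 0) : X t = 1 ∨ X t = -1 := by
  have h := S.lev t ht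
  rw [hY, zero_pow (by have := S.n_pos; omega), add_zero, ← (even_two_mul m).pow_abs] at h
  have h1 := (pow_eq_one_iff_of_nonneg (abs_nonneg (X t)) (by have := S.m_pos; omega)).1 h
  rcases abs_choice (X t) with h2 | h2
  · left; linarith
  · right; linarith

lemma right_neg (S : Sys m n k u X Y w) {t : ℝ} (ht : 0 ≤ t) (hY : Y t = 0) (hX : X t = -1) :
    ∀ᶠ s in 𝓝[>] t, Y s < 0 := by
  have hd := S.dY t ht
  rw [hX, Odd.neg_one_pow ⟨m - 1, by have := S.m_pos; omega⟩] at hd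
  have hneg : (m:ℝ) * -1 * w t < 0 := by
    have h1 : (0:ℝ) < m := by exact_mod_cast S.m_pos
    have := mul_pos h1 (S.hw t ht)
    linarith
  have h1 := (hasDerivAt_iff_tendsto_slope.1 hd).mono_left
    (nhdsWithin_mono t (show Ioi t ⊆ {t}ᶜ from fun s hs => ne_of_gt hs))
  filter_upwards [h1.eventually_lt_const hneg, self_mem_nhdsWithin] with s hs1 hs2
  rw [slope_def_field, hY, sub_zero] at hs1
  have hs3 : 0 < s - t := sub_pos.2 hs2
  by_contra hcon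
  push Not at hcon
  exact absurd hs1 (not_lt.2 (div_nonneg hcon hs3.le))

lemma right_pos (S : Sys m n k u X Y w) {t : ℝ} (ht : 0 ≤ t) (hY : Y t = 0) (hX : X t = 1) :
    ∀ᶠ s in 𝓝[>] t, 0 < Y s := by
  have := S.neg.right_neg ht (by simp [hY]) (by simp [hX])
  filter_upwards [this] with s hs
  linarith

/-- Next zero of `Y`. -/
lemma next_zero (S : Sys m n k u X Y w) {t₀ : ℝ} (ht : 0 ≤ t₀) (hY : 0 < Y t₀) :
    ∃ τ, t₀ < τ ∧ Y τ = 0 ∧ X τ = -1 ∧ (∀ s ∈ Icc t₀ τ, 0 ≤ Y s) ∧ u τ ≤ u t₀ + 12 * m * k := by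
  set Z : Set ℝ := {t | t₀ ≤ t ∧ Y t ≤ 0} with hZ
  have hne : Z.Nonempty := by
    by_contra hcon
    rw [not_nonempty_iff_eq_empty] at hcon
    have hpos : ∀ t, t₀ ≤ t → 0 ≤ Y t := by
      intro t h
      by_contra hc
      push Not at hc
      have : t ∈ Z := ⟨h, hc.le⟩
      rw [hcon] at this
      exact this
    obtain ⟨t, h1, h2⟩ := ((S.lim.eventually_gt_atTop (u t₀ + 12 * m * k)).and
      (eventually_ge_atTop t₀)).exists
    have := S.grow ht h2 (fun τ hτ => hpos τ hτ.1)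
    linarith
  have hbdd : BddBelow Z := ⟨t₀, fun t h => h.1⟩
  have hclosed : IsClosed Z := by
    have : Z = Ici t₀ ∩ Y ⁻¹' Iic 0 := rfl
    rw [this]
    exact (S.Y_cont.mono (Ici_subset_Ici.2 ht)).preimage_isClosed_of_isClosed isClosed_Ici
      isClosed_Iic
  have hmem : sInf Z ∈ Z := hclosed.csInf_mem hne hbdd
  set τ := sInf Z with hτ
  have hτ0 : t₀ ≤ τ := hmem.1
  have hτ1 : t₀ < τ := by
    rcases hτ0.eq_or_lt with h | h
    · exfalso
      have := hmem.2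
      rw [← h] at this
      linarith
    · exact h
  have hbefore : ∀ s, t₀ ≤ s → s < τ → 0 < Y s := by
    intro s h1 h2
    by_contra hc
    push Not at hc
    exact absurd (csInf_le hbdd (show s ∈ Z from ⟨h1, hc⟩)) (not_le.2 h2)
  have hpos0 : 0 ≤ τ := ht.trans hτ0
  have hev : ∀ᶠ s in 𝓝[<] τ, 0 < Y s := by
    filter_upwards [Ioo_mem_nhdsLT hτ1] with s hs
    exact hbefore s hs.1.le hs.2
  have hYτ : Y τ = 0 := by
    refine le_antisymm hmem.2 ?_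
    have hc : Tendsto Y (𝓝[<] τ) (𝓝 (Y τ)) :=
      (S.dY τ hpos0).continuousAt.mono_left nhdsWithin_le_nhds
    exact ge_of_tendsto hc (hev.mono fun s hs => hs.le)
  have hXτ : X τ = -1 := by
    rcases S.X_eq hpos0 hYτ with h | h
    · exfalso
      have hd := S.dY τ hpos0
      rw [h, one_pow, mul_one] at hd
      have h1 := (hasDerivAt_iff_tendsto_slope.1 hd).mono_left
        (nhdsWithin_mono τ (show Iio τ ⊆ {τ}ᶜ from fun s hs => ne_of_lt hs))
      have hp : 0 < (m:ℝ) * w τ :=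
        mul_pos (by exact_mod_cast S.m_pos) (S.hw τ hpos0)
      have h2 : (m:ℝ) * w τ ≤ 0 := by
        refine le_of_tendsto h1 ?_
        filter_upwards [hev, self_mem_nhdsWithin] with s hs1 hs2
        rw [slope_def_field, hYτ, sub_zero]
        have : s - τ < 0 := sub_neg.2 hs2
        exact div_nonpos_of_nonneg_of_nonpos hs1.le this.le
      linarith
    · exact h
  have hall : ∀ s ∈ Icc t₀ τ, 0 ≤ Y s := by
    intro s hs
    rcases hs.2.eq_or_lt with h | h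
    · rw [h, hYτ]
    · exact (hbefore s hs.1 h).le
  exact ⟨τ, hτ1, hYτ, hXτ, hall, S.grow ht hτ0 hall⟩

lemma pick_right {P : ℝ → Prop} (S : Sys m n k u X Y w) {t : ℝ} (ht : 0 ≤ t)
    (hP : ∀ᶠ s in 𝓝[>] t, P s) : ∃ s, t < s ∧ P s ∧ u s ≤ u t + 1 := by
  have hc : Tendsto u (𝓝[>] t) (𝓝 (u t)) :=
    (S.du t ht).continuousAt.mono_left nhdsWithin_le_nhds
  have h1 : ∀ᶠ s in 𝓝[>] t, u s < u t + 1 := hc.eventually_lt_const (by linarith)
  have h0 : ∀ᶠ s in 𝓝[>] t, s ∈ Ioi t := eventually_mem_nhdsWithin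
  obtain ⟨s, h2, h3, h4⟩ := (h0.and (hP.and h1)).exists
  exact ⟨s, h2, h3, h4.le⟩

lemma rot_neg (S : Sys m n k u X Y w) {t₀ : ℝ} (ht : 0 ≤ t₀) (hY : Y t₀ < 0) :
    ∃ τ, t₀ ≤ τ ∧ Y τ = 0 ∧ X τ = 1 ∧ u τ ≤ u t₀ + 12 * m * k := by
  obtain ⟨τ, h1, h2, h3, h4, h5⟩ := S.neg.next_zero ht (show 0 < -Y t₀ by linarith)
  exact ⟨τ, h1.le, neg_eq_zero.1 h2, neg_inj.1 h3, h5⟩

/-- The positive half axis is reached after a bounded growth of `u`. -/
lemma rot (S : Sys m n k u X Y w) {t₀ : ℝ} (ht : 0 ≤ t₀) :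
    ∃ τ, t₀ ≤ τ ∧ Y τ = 0 ∧ X τ = 1 ∧ u τ ≤ u t₀ + (24 * m * k + 2) := by
  have hk0 : (0:ℝ) ≤ 12 * m * k := by positivity
  -- from a point of the negative half axis
  have key : ∀ s, 0 ≤ s → Y s = 0 → X s = -1 →
      ∃ τ, s ≤ τ ∧ Y τ = 0 ∧ X τ = 1 ∧ u τ ≤ u s + (12 * m * k + 1) := by
    intro s hs h1 h2
    obtain ⟨s', h3, h4, h5⟩ := S.pick_right hs (S.right_neg hs h1 h2)
    obtain ⟨τ, h6, h7, h8, h9⟩ := S.rot_neg (hs.trans h3.le) h4
    exact ⟨τ, h3.le.trans h6, h7, h8, by linarith⟩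
  rcases lt_trichotomy (Y t₀) 0 with h | h | h
  · obtain ⟨τ, h6, h7, h8, h9⟩ := S.rot_neg ht h
    exact ⟨τ, h6, h7, h8, by linarith⟩
  · rcases S.X_eq ht h with h1 | h1
    · exact ⟨t₀, le_rfl, h, h1, by linarith⟩
    · obtain ⟨τ, h6, h7, h8, h9⟩ := key t₀ ht h h1
      exact ⟨τ, h6, h7, h8, by linarith⟩
  · obtain ⟨s, h1, h2, h3, h4, h5⟩ := S.next_zero ht h
    obtain ⟨τ, h6, h7, h8, h9⟩ := key s (ht.trans h1.le) h2 h3
    exact ⟨τ, h1.le.trans h6, h7, h8, by linarith⟩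

/-- Crossing lemma. -/
lemma cross (S : Sys m n k u X Y w) {t₀ : ℝ} (ht : 0 ≤ t₀) {f : ℝ → ℝ}
    (hf : ContinuousOn f (Ici 0))
    (h1 : ∀ t, t₀ ≤ t → Y t = 0 → X t = 1 → u t ≤ u t₀ + (36 * m * k + 3) → 0 < f t)
    (h2 : ∀ t, t₀ ≤ t → Y t = 0 → X t = -1 → u t ≤ u t₀ + (36 * m * k + 3) → f t < 0) :
    ∃ t, t₀ ≤ t ∧ f t = 0 ∧ 0 ≤ Y t ∧ u t ≤ u t₀ + (36 * m * k + 3) := by
  have hk0 : (0:ℝ) ≤ 12 * m * k := by positivity
  obtain ⟨τ, h3, h4, h5, h6⟩ := S.rot ht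
  have hτ0 : 0 ≤ τ := ht.trans h3
  have hfτ : 0 < f τ := h1 τ h3 h4 h5 (by linarith)
  have hfe : ∀ᶠ s in 𝓝[>] τ, 0 < f s := by
    have hc : Tendsto f (𝓝[>] τ) (𝓝 (f τ)) :=
      (hf τ hτ0).mono_left (nhdsWithin_mono τ (fun s (hs : τ < s) => hτ0.trans hs.le))
    exact hc.eventually_const_lt hfτ
  obtain ⟨s, h7, ⟨h8, h9⟩, h10⟩ := S.pick_right hτ0 ((S.right_pos hτ0 h4 h5).and hfe)
  have hs0 : 0 ≤ s := hτ0.trans h7.le
  obtain ⟨σ, g1, g2, g3, g4, g5⟩ := S.next_zero hs0 h8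
  have hσ : t₀ ≤ σ := h3.trans (h7.le.trans g1.le)
  have hfσ : f σ < 0 := h2 σ hσ g2 g3 (by linarith)
  have hcont : ContinuousOn f (Icc s σ) := hf.mono fun t h => hs0.trans h.1
  obtain ⟨t, ht1, ht2⟩ := intermediate_value_Icc' g1.le hcont
    (show (0:ℝ) ∈ Icc (f σ) (f s) from ⟨hfσ.le, h9.le⟩)
  refine ⟨t, h3.trans (h7.le.trans ht1.1), ht2, g4 t ht1, ?_⟩
  have := S.u_mono (show t ∈ Ici 0 from hs0.trans ht1.1)
    (show σ ∈ Ici 0 from ht.trans hσ) ht1.2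
  linarith

end Sys

end Pool.Agent.V1185.Spiral
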