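import Pool.Agent.V1185.Spiral.Area

open Set Real Filter Topology MeasureTheory
open scoped ENNReal

namespace Pool.Agent.V1185.Spiral

section
variable {m n k : ℕ} {x y : ℝ → ℝ}

lemma rpow_mul_pow {ρ : ℝ} (hρ : 0 < ρ) (a : ℝ) (j : ℕ) : (ρ ^ a) ^ j = ρ ^ (a * j) := by
  rw [← rpow_natCast, ← rpow_mul hρ.le]

/-- From the planar system to the normalised one. -/
lemma sys_of_ode (hm : Odd m) (hn : Odd n) (hnm : n < m) (hk : 1 ≤ k)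
    (hx : ∀ t, 0 ≤ t → HasDerivAt x (-(n * y t ^ (2 * n - 1)) -
      n * x t ^ m * y t ^ (n - 1) * (x t ^ (2 * m) + y t ^ (2 * n)) ^ k) t)
    (hy : ∀ t, 0 ≤ t → HasDerivAt y (m * x t ^ (2 * m - 1) -
      m * x t ^ (m - 1) * y t ^ n * (x t ^ (2 * m) + y t ^ (2 * n)) ^ k) t)
    (hpos : ∀ t, 0 ≤ t → 0 < x t ^ (2 * m) + y t ^ (2 * n))
    (hlim : Tendsto (fun t => x t ^ (2 * m) + y t ^ (2 * n)) atTop (𝓝 0)) :
    Sys m n k (fun t => ((x t ^ (2 * m) + y t ^ (2 * n)) ^ k)⁻¹)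
      (fun t => x t * (x t ^ (2 * m) + y t ^ (2 * n)) ^ (-(1 / (2 * m : ℝ))))
      (fun t => y t * (x t ^ (2 * m) + y t ^ (2 * n)) ^ (-(1 / (2 * n : ℝ))))
      (fun t => (x t ^ (2 * m) + y t ^ (2 * n)) ^ (1 - 1 / (2 * m : ℝ) - 1 / (2 * n : ℝ))) := by
  obtain ⟨m', rfl⟩ : ∃ m', m = m' + 1 := ⟨m - 1, by have := hm.pos; omega⟩
  obtain ⟨n', rfl⟩ : ∃ n', n = n' + 1 := ⟨n - 1, by have := hn.pos; omega⟩
  have em : 2 * (m' + 1) - 1 = 2 * m' + 1 := by omega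
  have en : 2 * (n' + 1) - 1 = 2 * n' + 1 := by omega
  have hmR : (0:ℝ) < (m' + 1 : ℕ) := by positivity
  have hnR : (0:ℝ) < (n' + 1 : ℕ) := by positivity
  set ρ : ℝ → ℝ := fun t => x t ^ (2 * (m' + 1)) + y t ^ (2 * (n' + 1)) with hρ
  have hd : ∀ t, 0 ≤ t → HasDerivAt ρ (-(2 * (m' + 1 : ℕ) * (n' + 1 : ℕ) *
      ρ t ^ (k + 1) * (x t ^ m' * y t ^ n'))) t := by
    intro t ht
    have h1 := ((hx t ht).pow (2 * (m' + 1))).add ((hy t ht).pow (2 * (n' + 1)))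
    refine h1.congr_deriv ?_
    rw [em, en]
    simp only [Nat.add_sub_cancel]
    have hρt : ρ t = x t ^ (2 * (m' + 1)) + y t ^ (2 * (n' + 1)) := rfl
    rw [← hρt, pow_succ (ρ t) k]
    nth_rewrite 4 [hρt]
    push_cast
    ring
  have hρp : ∀ t, 0 ≤ t → 0 < ρ t := hpos
  refine ⟨hm, hn, hnm, hk, ?_, ?_, ?_, ?_, ?_, ?_, ?_⟩
  · intro t ht
    exact inv_pos.2 (pow_pos (hρp t ht) k)
  · intro t ht
    exact rpow_pos_of_pos (hρp t ht) _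
  · intro t ht
    have h0 := hρp t ht
    have h1 := ((hd t ht).pow k).inv (pow_pos h0 k).ne'
    refine h1.congr_deriv ?_
    simp only [Nat.add_sub_cancel]
    have e1 : (x t * ρ t ^ (-(1 / (2 * (m' + 1 : ℕ) : ℝ)))) ^ m' *
        (y t * ρ t ^ (-(1 / (2 * (n' + 1 : ℕ) : ℝ)))) ^ n' *
        ρ t ^ (1 - 1 / (2 * (m' + 1 : ℕ) : ℝ) - 1 / (2 * (n' + 1 : ℕ) : ℝ))
        = x t ^ m' * y t ^ n' := by
      rw [mul_pow, mul_pow, rpow_mul_pow h0, rpow_mul_pow h0]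
      have : ρ t ^ (-(1 / (2 * (m' + 1 : ℕ) : ℝ)) * (m':ℝ)) *
          ρ t ^ (-(1 / (2 * (n' + 1 : ℕ) : ℝ)) * (n':ℝ)) *
          ρ t ^ (1 - 1 / (2 * (m' + 1 : ℕ) : ℝ) - 1 / (2 * (n' + 1 : ℕ) : ℝ)) = 1 := by
        rw [← rpow_add h0, ← rpow_add h0]
        have : -(1 / (2 * (m' + 1 : ℕ) : ℝ)) * (m':ℝ) + -(1 / (2 * (n' + 1 : ℕ) : ℝ)) * (n':ℝ)
            + (1 - 1 / (2 * (m' + 1 : ℕ) : ℝ) - 1 / (2 * (n' + 1 : ℕ) : ℝ)) = 0 := by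
          push_cast
          field_simp
          ring
        rw [this, rpow_zero]
      calc _ = x t ^ m' * y t ^ n' * (ρ t ^ (-(1 / (2 * (m' + 1 : ℕ) : ℝ)) * (m':ℝ)) *
          ρ t ^ (-(1 / (2 * (n' + 1 : ℕ) : ℝ)) * (n':ℝ)) *
          ρ t ^ (1 - 1 / (2 * (m' + 1 : ℕ) : ℝ) - 1 / (2 * (n' + 1 : ℕ) : ℝ))) := by ring
        _ = _ := by rw [this, mul_one]
    have e2 : 2 * ((m' + 1 : ℕ) : ℝ) * (n' + 1 : ℕ) * k *
        ((x t * ρ t ^ (-(1 / (2 * (m' + 1 : ℕ) : ℝ)))) ^ m' *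
        (y t * ρ t ^ (-(1 / (2 * (n' + 1 : ℕ) : ℝ)))) ^ n') *
        ρ t ^ (1 - 1 / (2 * (m' + 1 : ℕ) : ℝ) - 1 / (2 * (n' + 1 : ℕ) : ℝ))
        = 2 * ((m' + 1 : ℕ) : ℝ) * (n' + 1 : ℕ) * k * (x t ^ m' * y t ^ n') := by
      rw [← e1]; ring
    refine Eq.trans ?_ e2.symm
    obtain ⟨k', rfl⟩ : ∃ k', k = k' + 1 := ⟨k - 1, by omega⟩
    simp only [Nat.add_sub_cancel, Pi.pow_apply]
    have h2 : ρ t ≠ 0 := h0.ne'
    field_simp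
    ring
  · intro t ht
    have h0 := hρp t ht
    have h1 := (hx t ht).mul ((hd t ht).rpow_const (p := -(1 / (2 * (m' + 1 : ℕ) : ℝ)))
      (Or.inl h0.ne'))
    refine h1.congr_deriv ?_
    rw [en]
    simp only [Nat.add_sub_cancel]
    rw [mul_pow, rpow_mul_pow h0, rpow_sub_one h0.ne']
    have e1 : ρ t ^ (-(1 / (2 * (n' + 1 : ℕ) : ℝ)) * ((2 * n' + 1 : ℕ) : ℝ)) *
        ρ t ^ (1 - 1 / (2 * (m' + 1 : ℕ) : ℝ) - 1 / (2 * (n' + 1 : ℕ) : ℝ))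
        = ρ t ^ (-(1 / (2 * (m' + 1 : ℕ) : ℝ))) := by
      rw [← rpow_add h0]
      congr 1
      push_cast
      field_simp
      ring
    have e2 : -(((n' + 1 : ℕ) : ℝ) * (y t ^ (2 * n' + 1) *
        ρ t ^ (-(1 / (2 * (n' + 1 : ℕ) : ℝ)) * ((2 * n' + 1 : ℕ) : ℝ))) *
        ρ t ^ (1 - 1 / (2 * (m' + 1 : ℕ) : ℝ) - 1 / (2 * (n' + 1 : ℕ) : ℝ)))
        = -(((n' + 1 : ℕ) : ℝ) * y t ^ (2 * n' + 1) * ρ t ^ (-(1 / (2 * (m' + 1 : ℕ) : ℝ)))) := by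
      rw [← e1]; ring
    rw [e2]
    generalize ρ t ^ (-(1 / (2 * (m' + 1 : ℕ) : ℝ))) = Z
    have h3 : x t ^ (2 * (m' + 1)) + y t ^ (2 * (n' + 1)) = ρ t := rfl
    rw [h3]
    field_simp
    ring
  · intro t ht
    have h0 := hρp t ht
    have h1 := (hy t ht).mul ((hd t ht).rpow_const (p := -(1 / (2 * (n' + 1 : ℕ) : ℝ)))
      (Or.inl h0.ne'))
    refine h1.congr_deriv ?_
    rw [em]
    simp only [Nat.add_sub_cancel]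
    rw [mul_pow, rpow_mul_pow h0, rpow_sub_one h0.ne']
    have e1 : ρ t ^ (-(1 / (2 * (m' + 1 : ℕ) : ℝ)) * ((2 * m' + 1 : ℕ) : ℝ)) *
        ρ t ^ (1 - 1 / (2 * (m' + 1 : ℕ) : ℝ) - 1 / (2 * (n' + 1 : ℕ) : ℝ))
        = ρ t ^ (-(1 / (2 * (n' + 1 : ℕ) : ℝ))) := by
      rw [← rpow_add h0]
      congr 1
      push_cast
      field_simp
      ring
    have e2 : ((m' + 1 : ℕ) : ℝ) * (x t ^ (2 * m' + 1) *
        ρ t ^ (-(1 / (2 * (m' + 1 : ℕ) : ℝ)) * ((2 * m' + 1 : ℕ) : ℝ))) *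
        ρ t ^ (1 - 1 / (2 * (m' + 1 : ℕ) : ℝ) - 1 / (2 * (n' + 1 : ℕ) : ℝ))
        = ((m' + 1 : ℕ) : ℝ) * x t ^ (2 * m' + 1) * ρ t ^ (-(1 / (2 * (n' + 1 : ℕ) : ℝ))) := by
      rw [← e1]; ring
    rw [e2]
    generalize ρ t ^ (-(1 / (2 * (n' + 1 : ℕ) : ℝ))) = Z
    have h3 : x t ^ (2 * (m' + 1)) + y t ^ (2 * (n' + 1)) = ρ t := rfl
    rw [h3]
    field_simp
    ring
  · intro t ht
    have h0 := hρp t ht
    rw [mul_pow, mul_pow, rpow_mul_pow h0, rpow_mul_pow h0]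
    have e1 : -(1 / (2 * (m' + 1 : ℕ) : ℝ)) * ((2 * (m' + 1) : ℕ) : ℝ) = -1 := by
      push_cast; field_simp
    have e2 : -(1 / (2 * (n' + 1 : ℕ) : ℝ)) * ((2 * (n' + 1) : ℕ) : ℝ) = -1 := by
      push_cast; field_simp
    rw [e1, e2, rpow_neg_one, ← add_mul]
    exact mul_inv_cancel₀ h0.ne'
  · have h1 : Tendsto (fun t => ρ t ^ k) atTop (𝓝[>] 0) := by
      refine tendsto_nhdsWithin_iff.2 ⟨?_, ?_⟩
      · have := hlim.pow k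
        rwa [zero_pow (by omega)] at this
      · filter_upwards [eventually_ge_atTop 0] with t ht
        exact pow_pos (hρp t ht) k
    exact tendsto_inv_nhdsGT_zero.comp h1

end

end Pool.Agent.V1185.Spiral
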